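import Pool.Agent.Helper20.NP.Stmts

set_option autoImplicit false

/-! # The derivation d/dt of k((t)) (module DK) -/

namespace Pool.Agent.Helper20.NP

open HahnSeries

universe u

noncomputable def dk_E {k : Type u} [Field k] (x : LaurentSeries k) : LaurentSeries k where
  coeff n := (n : k) * x.coeff n
  isPWO_support' := x.isPWO_support.mono (by
    intro n hn h
    apply hn
    change (n : k) * x.coeff n = 0
    rw [h, mul_zero])

theorem dk_coeff {k : Type u} [Field k] (x : LaurentSeries k) (n : ℤ) :
    (dk_E x).coeff n = (n : k) * x.coeff n := rfl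

theorem dk_supp {k : Type u} [Field k] (x : LaurentSeries k) :
    (dk_E x).support ⊆ x.support := by
  intro n hn h
  apply hn
  rw [dk_coeff, h, mul_zero]

theorem dk_leib {k : Type u} [Field k] (x y : LaurentSeries k) :
    dk_E (x * y) = x * dk_E y + y * dk_E x := by
  ext n
  rw [coeff_add, dk_coeff, coeff_mul, mul_comm y,
    coeff_mul_right' y.isPWO_support (dk_supp y), coeff_mul_left' x.isPWO_support (dk_supp x),
    Finset.mul_sum, ← Finset.sum_add_distrib]
  refine Finset.sum_congr rfl ?_
  intro ij hij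
  have h1 : ij.1 + ij.2 = n := (Finset.mem_antidiagonal.1 hij).2.2
  rw [dk_coeff, dk_coeff, ← h1]
  push_cast
  ring

theorem dk_add {k : Type u} [Field k] (x y : LaurentSeries k) :
    dk_E (x + y) = dk_E x + dk_E y := by
  ext n
  rw [coeff_add, dk_coeff, dk_coeff, dk_coeff, coeff_add, mul_add]

noncomputable def dk_A (k : Type u) [Field k] : LaurentSeries k →+ LaurentSeries k where
  toFun := fun x => single (-1) 1 * dk_E x
  map_zero' := by
    have h : dk_E (0 : LaurentSeries k) = 0 := by
      ext n
      rw [dk_coeff, coeff_zero, mul_zero]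
    rw [h, mul_zero]
  map_add' := fun x y => by rw [dk_add, mul_add]

noncomputable def dk_f (k : Type u) [Field k] :
    @LinearMap ℤ ℤ _ _ (RingHom.id ℤ) (LaurentSeries k) (LaurentSeries k) _ _
      Algebra.toModule (AddCommGroup.toIntModule _) :=
  @LinearMap.mk ℤ ℤ _ _ (RingHom.id ℤ) (LaurentSeries k) (LaurentSeries k) _ _
    Algebra.toModule (AddCommGroup.toIntModule _) (dk_A k).toAddHom (by
      intro n x
      change dk_A k (@HSMul.hSMul ℤ (LaurentSeries k) (LaurentSeries k)
        (@instHSMul _ _ Algebra.toSMul) n x) = n • dk_A k x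
      rw [Algebra.smul_def, eq_intCast, ← zsmul_eq_mul]
      exact map_zsmul (dk_A k) n x)

noncomputable def dk_L (k : Type u) [Field k] : Derivation ℤ (LaurentSeries k) (LaurentSeries k) :=
  Derivation.mk' (dk_f k)
    (fun a b => by
      change single (-1) 1 * dk_E (a * b) = a • (single (-1) 1 * dk_E b) +
        b • (single (-1) 1 * dk_E a)
      rw [dk_leib, smul_eq_mul, smul_eq_mul]
      ring)

theorem dk_L_apply {k : Type u} [Field k] (x : LaurentSeries k) :
    dk_L k x = single (-1) 1 * dk_E x := rfl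

theorem dk_L_coeff {k : Type u} [Field k] (x : LaurentSeries k) (n : ℤ) :
    (dk_L k x).coeff (n - 1) = (n : k) * x.coeff n := by
  rw [dk_L_apply, sub_eq_add_neg, coeff_single_mul_add, one_mul, dk_coeff]

theorem st_DK : ST_DK.{u} := by
  intro p _ k _ _
  refine ⟨dk_L k, ?_⟩
  · intro x
    have h1 : x.orderTop ≤ (dk_L k x).orderTop + ((1 : ℤ) : WithTop ℤ) := by
      by_cases h0 : dk_L k x = 0
      · rw [h0, orderTop_zero, WithTop.top_add]
        exact le_top
      · obtain ⟨m, hm⟩ := WithTop.ne_top_iff_exists.1 (orderTop_ne_top.2 h0)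
        have h2 : (dk_L k x).coeff m ≠ 0 := coeff_orderTop_ne hm.symm
        have h3 := dk_L_coeff x (m + 1)
        rw [add_sub_cancel_right] at h3
        have h4 : x.coeff (m + 1) ≠ 0 := by
          intro h
          apply h2
          rw [h3, h, mul_zero]
        rw [← hm, ← WithTop.coe_add]
        exact orderTop_le_of_coeff_ne_zero h4
    refine ⟨h1, ?_⟩
    intro m hm hp
    have h2 : x.coeff m ≠ 0 := coeff_orderTop_ne hm
    have h3 : (dk_L k x).coeff (m - 1) ≠ 0 := by
      rw [dk_L_coeff]
      refine mul_ne_zero ?_ h2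
      intro h
      exact hp ((CharP.intCast_eq_zero_iff k p m).1 h)
    have h4 : (dk_L k x).orderTop ≤ ((m - 1 : ℤ) : WithTop ℤ) := orderTop_le_of_coeff_ne_zero h3
    rw [hm] at h1
    obtain ⟨j, hj⟩ := WithTop.ne_top_iff_exists.1 (ne_top_of_le_ne_top WithTop.coe_ne_top h4)
    rw [← hj] at h1 h4 ⊢
    rw [← WithTop.coe_add, WithTop.coe_le_coe] at h1
    rw [WithTop.coe_le_coe] at h4
    have h5 : j = m - 1 := by omega
    rw [h5]

end Pool.Agent.Helper20.NP
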