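import Pool.Agent.Helper22.NP.Basic

set_option autoImplicit false

/-! # The Heisenberg classes and the decomposition of linear characters (module THB) -/

namespace Pool.Agent.Helper22.NP

open Multiplicative

section zcs

variable {p : ℕ} [Fact p.Prime] {M : Type} [Field M] [CharP M p]

theorem thb_zc (x : Multiplicative (ZMod p)) :
    zc p M x = ZMod.castHom (dvd_refl p) M (toAdd x) := by
  unfold zc
  rw [ZMod.castHom_apply, ZMod.natCast_val]

theorem thb_zc_mul (x y : Multiplicative (ZMod p)) : zc p M (x * y) = zc p M x + zc p M y := by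
  rw [thb_zc, thb_zc, thb_zc, toAdd_mul, map_add]

theorem thb_zc_one : zc p M 1 = 0 := by
  rw [thb_zc, toAdd_one, map_zero]

theorem thb_zc_pow (x : Multiplicative (ZMod p)) (n : ℕ) : zc p M (x ^ n) = n * zc p M x := by
  rw [thb_zc, thb_zc, toAdd_pow, nsmul_eq_mul, map_mul, map_natCast]

theorem thb_zc_inj {x y : Multiplicative (ZMod p)} (h : zc p M x = zc p M y) : x = y := by
  rw [thb_zc, thb_zc] at h
  exact toAdd.injective ((ZMod.castHom (dvd_refl p) M).injective h)

theorem thb_zc_p (x : Multiplicative (ZMod p)) : zc p M x ^ p = zc p M x := by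
  rw [thb_zc, ← map_pow, ZMod.pow_card]

theorem thb_root {x : M} (h : x ^ p = x) : ∃ c : Multiplicative (ZMod p), x = zc p M c := by
  rw [← Subfield.mem_bot_iff_pow_eq_self, mem_bot_iff_intCast p M] at h
  obtain ⟨n, hn⟩ := h
  refine ⟨ofAdd (n : ZMod p), ?_⟩
  rw [thb_zc, toAdd_ofAdd, map_intCast, hn]

theorem thb_sub_pow (x y : M) : (x - y) ^ p - (x - y) = (x ^ p - x) - (y ^ p - y) := by
  rw [sub_pow_char]
  ring

variable {G : Type} [Group G] [MulSemiringAction G M]

theorem thb_smul_zc (g : G) (c : Multiplicative (ZMod p)) : g • zc p M c = zc p M c :=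
  map_natCast (MulSemiringAction.toRingHom G M g) _

theorem thb_smul_nat (g : G) (n : ℕ) : g • (n : M) = n :=
  map_natCast (MulSemiringAction.toRingHom G M g) _

variable {la ph : G →* Multiplicative (ZMod p)} {z F Y : M}

theorem thb_e (hz : ∀ g, g • z = z + zc p M (la g)) (hF : ∀ g, g • F = F + zc p M (ph g))
    (hY : Y ^ p - Y = (F ^ p - F) * z) (g : G) :
    ∃ e : Multiplicative (ZMod p), g • Y = Y + zc p M (la g) * F + zc p M e := by
  have hinv : g • (F ^ p - F) = F ^ p - F := by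
    rw [smul_sub, smul_pow', hF, add_pow_char, thb_zc_p]
    ring
  have h1 : (g • Y) ^ p - g • Y = (F ^ p - F) * (z + zc p M (la g)) := by
    rw [← smul_pow', ← smul_sub, hY, smul_mul', hinv, hz]
  have h2 : (g • Y - Y - zc p M (la g) * F) ^ p = g • Y - Y - zc p M (la g) * F := by
    have h3 : (zc p M (la g) * F) ^ p - zc p M (la g) * F = zc p M (la g) * (F ^ p - F) := by
      rw [mul_pow, thb_zc_p]
      ring
    have h4 := thb_sub_pow (p := p) (g • Y - Y) (zc p M (la g) * F)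
    have h4' : (g • Y - Y) ^ p - (g • Y - Y) = ((g • Y) ^ p - g • Y) - (Y ^ p - Y) :=
      thb_sub_pow _ _
    rw [h4', h1, hY, h3] at h4
    have h5 : (F ^ p - F) * (z + zc p M (la g)) - (F ^ p - F) * z -
        zc p M (la g) * (F ^ p - F) = 0 := by ring
    rw [h5] at h4
    exact sub_eq_zero.1 h4
  obtain ⟨c, hc⟩ := thb_root h2
  refine ⟨c, ?_⟩
  rw [← hc]
  ring

theorem thb_theta (hz : ∀ g, g • z = z + zc p M (la g)) (hF : ∀ g, g • F = F + zc p M (ph g))
    (hY : Y ^ p - Y = (F ^ p - F) * z) (hp2 : p ≠ 2) : ∃ θ : G → Multiplicative (ZMod p),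
    (∀ h, la h = 1 → h • Y = Y + zc p M (θ h)) ∧
    (∀ h h', la h = 1 → la h' = 1 → θ (h * h') = θ h * θ h') ∧
    (∀ g h, la h = 1 → θ (g⁻¹ * h * g) = θ h * ph h ^ (toAdd (la g)).val) ∧
    (∀ g, θ (g ^ p) = 1) := by
  have hex : ∀ h : G, ∃ c : Multiplicative (ZMod p), la h = 1 → h • Y = Y + zc p M c := by
    intro h
    obtain ⟨e, he⟩ := thb_e hz hF hY h
    refine ⟨e, fun h1 => ?_⟩
    rw [he, h1, thb_zc_one, zero_mul, add_zero]
  choose θ hθ using hex
  have hla : ∀ g : G, la (g ^ p) = 1 := by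
    intro g
    rw [map_pow]
    refine toAdd.injective ?_
    rw [toAdd_pow, toAdd_one, nsmul_eq_mul, CharP.cast_eq_zero, zero_mul]
  refine ⟨θ, hθ, ?_, ?_, ?_⟩
  · intro h h' h1 h2
    refine thb_zc_inj (M := M) (add_left_cancel (a := Y) ?_)
    rw [← hθ (h * h') (by rw [map_mul, h1, h2, one_mul]), mul_smul, hθ h' h2, smul_add,
      thb_smul_zc, hθ h h1, thb_zc_mul]
    ring
  · intro g h h1
    obtain ⟨e, he⟩ := thb_e hz hF hY g
    have h2 : la (g⁻¹ * h * g) = 1 := by
      rw [map_mul, map_mul, h1, mul_one, map_inv, inv_mul_cancel]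
    have h3 : g • ((g⁻¹ * h * g) • Y) = h • (g • Y) := by
      rw [← mul_smul, ← mul_smul]
      congr 1
      group
    rw [hθ _ h2, he, smul_add, thb_smul_zc, he, smul_add, smul_add, smul_mul', thb_smul_zc,
      thb_smul_zc, hF, hθ h h1] at h3
    refine thb_zc_inj (M := M) ?_
    rw [thb_zc_mul, thb_zc_pow]
    have h4 : zc p M (la g) = (((toAdd (la g)).val : ℕ) : M) := rfl
    rw [← h4]
    have h5 : zc p M (θ (g⁻¹ * h * g)) =
        (Y + zc p M (la g) * F + zc p M e + zc p M (θ (g⁻¹ * h * g))) -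
          (Y + zc p M (la g) * F + zc p M e) := by ring
    rw [h5, h3]
    ring
  · intro g
    obtain ⟨e, he⟩ := thb_e hz hF hY g
    have hi : ∀ i : ℕ, g ^ i • Y = Y + i * zc p M (la g) * F +
        (i.choose 2 : ℕ) * (zc p M (la g) * zc p M (ph g)) + i * zc p M e := by
      intro i
      induction i with
      | zero => simp
      | succ i ih =>
        rw [pow_succ', mul_smul, ih]
        simp only [smul_add, smul_mul', thb_smul_zc, thb_smul_nat]
        rw [he, hF, Nat.choose_succ_succ' i 1, Nat.choose_one_right]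
        push_cast
        ring
    have hp : p.Prime := Fact.out
    have hch : ((p.choose 2 : ℕ) : M) = 0 := by
      rw [CharP.cast_eq_zero_iff M p]
      exact hp.dvd_choose_self two_ne_zero (lt_of_le_of_ne hp.two_le (Ne.symm hp2))
    have h1 := hi p
    rw [hch, CharP.cast_eq_zero, zero_mul, zero_mul, zero_mul, zero_mul, add_zero, add_zero,
      add_zero, hθ _ (hla g)] at h1
    refine thb_zc_inj (M := M) ?_
    rw [thb_zc_one]
    exact add_eq_left.1 h1

end zcs

section roots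

variable {p : ℕ} [Fact p.Prime]

/-- the character of `ZMod p` defined by a root of unity -/
noncomputable def thb_E {ε : ℂˣ} (hε : ε ^ p = 1) : Multiplicative (ZMod p) →* ℂˣ where
  toFun x := ε ^ (toAdd x).val
  map_one' := by
    rw [toAdd_one, ZMod.val_zero, pow_zero]
  map_mul' x y := by
    rw [toAdd_mul, ZMod.val_add, ← pow_add]
    exact (pow_eq_pow_mod _ hε).symm

theorem thb_E_apply {ε : ℂˣ} (hε : ε ^ p = 1) (x : Multiplicative (ZMod p)) :
    thb_E hε x = ε ^ (toAdd x).val := rfl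

theorem thb_eps : ∃ (ε : ℂˣ) (hε : ε ^ p = 1), Function.Injective (thb_E hε) ∧
    ∀ u : ℂˣ, u ^ p = 1 → ∃ x, thb_E hε x = u := by
  have hp : p.Prime := Fact.out
  have h1 := Complex.isPrimitiveRoot_exp p hp.ne_zero
  have h2 : Complex.exp (2 * Real.pi * Complex.I / p) ≠ 0 := Complex.exp_ne_zero _
  have h3 : (Units.mk0 _ h2) ^ p = (1 : ℂˣ) := by
    ext
    rw [Units.val_pow_eq_pow_val, Units.val_mk0, Units.val_one]
    exact h1.pow_eq_one
  refine ⟨Units.mk0 _ h2, h3, ?_, ?_⟩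
  · intro x y hxy
    rw [thb_E_apply, thb_E_apply] at hxy
    have h4 := congrArg (fun u : ℂˣ => (u : ℂ)) hxy
    simp only [Units.val_pow_eq_pow_val, Units.val_mk0] at h4
    have h5 := h1.pow_inj (ZMod.val_lt _) (ZMod.val_lt _) h4
    exact toAdd.injective (ZMod.val_injective p h5)
  · intro u hu
    have h4 : (u : ℂ) ^ p = 1 := by
      rw [← Units.val_pow_eq_pow_val, hu, Units.val_one]
    obtain ⟨i, hi, h5⟩ := h1.eq_pow_of_pow_eq_one h4
    refine ⟨ofAdd (i : ZMod p), ?_⟩
    rw [thb_E_apply, toAdd_ofAdd, ZMod.val_natCast_of_lt hi]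
    ext
    rw [Units.val_pow_eq_pow_val, Units.val_mk0]
    exact h5

end roots

section conj

variable {P : Type} [Group P]

/-- the commutator with `g0` -/
def thb_cb (g0 b : P) : P := b⁻¹ * g0⁻¹ * b * g0

theorem thb_cb_mul {g0 b b' : P} (h : thb_cb g0 b ∈ Subgroup.center P) :
    thb_cb g0 (b * b') = thb_cb g0 b * thb_cb g0 b' := by
  have h1 := Subgroup.mem_center_iff.1 h b'⁻¹
  have h2 : thb_cb g0 (b * b') = b'⁻¹ * thb_cb g0 b * (g0⁻¹ * b' * g0) := by
    unfold thb_cb
    group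
  rw [h2, h1]
  unfold thb_cb
  group

theorem thb_conj_pow {g0 b : P} (h : thb_cb g0 b ∈ Subgroup.center P) (n : ℕ) :
    (g0 ^ n)⁻¹ * b * g0 ^ n = b * thb_cb g0 b ^ n := by
  induction n with
  | zero => simp
  | succ n ih =>
    have h1 : (g0 ^ (n + 1))⁻¹ * b * g0 ^ (n + 1) = g0⁻¹ * ((g0 ^ n)⁻¹ * b * g0 ^ n) * g0 := by
      rw [pow_succ]
      group
    have h2 := Subgroup.mem_center_iff.1 (Subgroup.pow_mem _ h n) g0
    have h3 : g0⁻¹ * b * g0 = b * thb_cb g0 b := by
      unfold thb_cb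
      group
    rw [h1, ih]
    calc g0⁻¹ * (b * thb_cb g0 b ^ n) * g0 = g0⁻¹ * b * (thb_cb g0 b ^ n * g0) := by group
      _ = g0⁻¹ * b * (g0 * thb_cb g0 b ^ n) := by rw [h2]
      _ = g0⁻¹ * b * g0 * thb_cb g0 b ^ n := by group
      _ = b * thb_cb g0 b * thb_cb g0 b ^ n := by rw [h3]
      _ = b * thb_cb g0 b ^ (n + 1) := by rw [mul_assoc, ← pow_succ']

end conj

theorem thb_surj {p : ℕ} [Fact p.Prime] {P : Type} [Group P] {lam : P →* Multiplicative (ZMod p)}
    (h : lam ≠ 1) : Function.Surjective lam := by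
  have hp : p.Prime := Fact.out
  have hcard : Nat.card (Multiplicative (ZMod p)) = p := by
    rw [Nat.card_eq_fintype_card, Fintype.card_multiplicative, ZMod.card]
  have : Fact (Nat.card (Multiplicative (ZMod p))).Prime := ⟨by rw [hcard]; exact hp⟩
  rcases lam.range.eq_bot_or_eq_top_of_prime_card with h1 | h1
  · exfalso
    apply h
    ext x
    have : lam x ∈ lam.range := ⟨x, rfl⟩
    rw [h1, Subgroup.mem_bot] at this
    rw [this]
    rfl
  · exact MonoidHom.range_eq_top.1 h1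

theorem st_THB (hHZB : ST_HZB) (hINX : ST_INX) : ST_THB := by
  intro p _ hp2 G k M P _ _ _ _ _ _ _ _ _ ι v π B lam z j F J Y hGS hpG hπ hA hBab hP ψ
  obtain ⟨hker, hlne, hjpos, hjp, haz, hvz, haF, hF1, hJp, hvF, hY⟩ := hA
  obtain ⟨hcB, hcc, hcp, hxp, hext⟩ := hP
  have hp : p.Prime := Fact.out
  haveI : CharP M p := charP_of_ring ι
  obtain ⟨ε, hε, hEinj, hEsurj⟩ := thb_eps (p := p)
  obtain ⟨g0, hg0⟩ := thb_surj hlne (ofAdd 1)
  have hmemB : ∀ x : P, x ∈ B ↔ lam x = 1 := by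
    intro x
    rw [← hker, MonoidHom.mem_ker]
  have hg0B : g0 ∉ B := by
    rw [hmemB, hg0]
    intro h
    have h1 := congrArg toAdd h
    rw [toAdd_ofAdd, toAdd_one] at h1
    exact one_ne_zero h1
  have hcb : ∀ b : P, thb_cb g0 b ∈ Subgroup.center P := fun b => hcc b g0
  -- the character `χ`
  have hκ : ∀ b : B, ∃ c : Multiplicative (ZMod p),
      thb_E hε c = ψ ⟨thb_cb g0 b, hcB (hcb b)⟩ := by
    intro b
    obtain ⟨c, hc⟩ := hEsurj (ψ ⟨thb_cb g0 b, hcB (hcb b)⟩) (by
      rw [← map_pow]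
      have h1 : (⟨thb_cb g0 b, hcB (hcb b)⟩ : B) ^ p = 1 := Subtype.ext (hcp b g0)
      rw [h1, map_one])
    exact ⟨c, hc⟩
  choose χ0 hχ0 using hκ
  have hχm : ∀ b b' : B, χ0 (b * b') = χ0 b * χ0 b' := by
    intro b b'
    apply hEinj
    rw [map_mul, hχ0, hχ0, hχ0, ← map_mul]
    congr 1
    exact Subtype.ext (thb_cb_mul (hcb b))
  have hχ1 : χ0 1 = 1 := by
    have := hχm 1 1
    rw [mul_one] at this
    exact left_eq_mul.1 this
  let χ : B →* Multiplicative (ZMod p) := { toFun := χ0, map_one' := hχ1, map_mul' := hχm }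
  obtain ⟨f, _, hfc, hfχ⟩ := hext g0 hg0B χ (by
    intro b hb
    change χ0 b = 1
    apply hEinj
    rw [hχ0, map_one]
    have h1 : (⟨thb_cb g0 b, hcB (hcb b)⟩ : B) = 1 := by
      refine Subtype.ext ?_
      change thb_cb g0 b = 1
      unfold thb_cb
      have h2 := Subgroup.mem_center_iff.1 hb g0⁻¹
      rw [mul_assoc (b : P)⁻¹, h2]
      group
    rw [h1, map_one])
  -- the Heisenberg class
  obtain ⟨θ, hθ1, hθ2, hθ3, hθ4⟩ := thb_theta (la := lam.comp π) (ph := f.comp π) (z := z)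
    (F := F f) (Y := Y f) (fun g => haz g) (fun g => haF f g) (hY f) hp2
  -- the linear character of `H`
  have hHB : ∀ h : (lam.comp π).ker, π (h : G) ∈ B := by
    intro h
    rw [hmemB]
    exact MonoidHom.mem_ker.1 h.2
  let ψ' : (lam.comp π).ker →* ℂˣ :=
    { toFun := fun h => ψ ⟨π (h : G), hHB h⟩ * (thb_E hε (θ (h : G)))⁻¹
      map_one' := by
        have h1 : (⟨π ((1 : (lam.comp π).ker) : G), hHB 1⟩ : B) = 1 := Subtype.ext (map_one π)
        have h2 : θ ((1 : (lam.comp π).ker) : G) = 1 := by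
          have := hθ4 1
          rw [one_pow] at this
          exact this
        rw [h1, h2, map_one, map_one, inv_one, mul_one]
      map_mul' := by
        intro a b
        have h1 : (⟨π ((a * b : (lam.comp π).ker) : G), hHB (a * b)⟩ : B) =
            ⟨π (a : G), hHB a⟩ * ⟨π (b : G), hHB b⟩ := Subtype.ext (map_mul π _ _)
        have h2 : θ ((a * b : (lam.comp π).ker) : G) = θ (a : G) * θ (b : G) :=
          hθ2 _ _ (MonoidHom.mem_ker.1 a.2) (MonoidHom.mem_ker.1 b.2)
        rw [h1, h2, map_mul, map_mul, mul_inv, mul_mul_mul_comm] }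
  have hindex : (lam.comp π).ker.index = p := by
    have hs : Function.Surjective (lam.comp π) := (thb_surj hlne).comp hπ
    rw [Subgroup.index_ker, MonoidHom.range_eq_top.2 hs,
      Subgroup.card_top, Nat.card_eq_fintype_card, Fintype.card_multiplicative, ZMod.card]
  obtain ⟨ω, hω⟩ := hINX p G (lam.comp π).ker hindex ψ' (by
    intro g h h' hh
    change ψ ⟨π (h' : G), hHB h'⟩ * (thb_E hε (θ (h' : G)))⁻¹ =
      ψ ⟨π (h : G), hHB h⟩ * (thb_E hε (θ (h : G)))⁻¹
    have e1 : θ (h' : G) = θ (h : G) * f (π (h : G)) ^ (toAdd (lam (π g))).val := by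
      rw [hh]
      exact hθ3 g h (MonoidHom.mem_ker.1 h.2)
    have e2 : f (π (h : G)) = χ0 ⟨π (h : G), hHB h⟩ := hfχ ⟨π (h : G), hHB h⟩
    have e3 : π (h' : G) = π (h : G) * thb_cb g0 (π (h : G)) ^ (toAdd (lam (π g))).val := by
      have hb1 : (g0 ^ (toAdd (lam (π g))).val)⁻¹ * π g ∈ B := by
        rw [hmemB, map_mul, map_inv, map_pow, hg0, ← ofAdd_nsmul, nsmul_eq_mul, mul_one,
          ZMod.natCast_val, ZMod.cast_id', id, ofAdd_toAdd, inv_mul_cancel]
      have hx : π (h : G) * thb_cb g0 (π (h : G)) ^ (toAdd (lam (π g))).val ∈ B :=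
        B.mul_mem (hHB h) (B.pow_mem (hcB (hcb _)) _)
      have hcomm := hBab _ hb1 _ hx
      rw [← thb_conj_pow (hcb _)] at hcomm ⊢
      rw [hh, map_mul, map_mul, map_inv]
      generalize (g0 ^ (toAdd (lam (π g))).val) = w at hcomm ⊢
      generalize π g = y at hcomm ⊢
      generalize π (h : G) = b at hcomm ⊢
      have e4 : y⁻¹ * b * y = (w⁻¹ * y)⁻¹ * ((w⁻¹ * b * w) * (w⁻¹ * y)) := by group
      rw [e4, ← hcomm]
      group
    have e5 : (⟨π (h' : G), hHB h'⟩ : B) = ⟨π (h : G), hHB h⟩ *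
        ⟨thb_cb g0 (π (h : G)), hcB (hcb _)⟩ ^ (toAdd (lam (π g))).val := Subtype.ext e3
    rw [e1, e5, e2, map_mul, map_mul, map_pow, map_pow, ← hχ0 ⟨π (h : G), hHB h⟩, mul_inv]
    generalize (thb_E hε (χ0 ⟨π (h : G), hHB h⟩)) ^ (toAdd (lam (π g))).val = u
    rw [mul_mul_mul_comm, mul_inv_cancel, mul_one])
  have hf1 : f = 1 → ∀ g : G, g • Y f = Y f := by
    intro h g
    have h1 := hY f
    rw [h, hF1] at h1
    rw [h]
    rw [zero_pow hp.ne_zero, sub_zero, zero_mul] at h1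
    obtain ⟨c, hc⟩ := thb_root (sub_eq_zero.1 h1)
    rw [hc, thb_smul_zc]
  refine ⟨f, ω, θ, ε, hfc, hε, ?_, ?_, hθ4, ?_, ?_⟩
  · intro g hg
    exact hθ1 g ((hmemB _).1 hg)
  · intro g b hb
    have hg : g ∈ (lam.comp π).ker := by
      rw [MonoidHom.mem_ker]
      change lam (π g) = 1
      rw [← hb, ← hmemB]
      exact b.2
    have h1 : ω g = ψ ⟨π g, hHB ⟨g, hg⟩⟩ * (thb_E hε (θ g))⁻¹ := hω ⟨g, hg⟩
    have h2 : (⟨π g, hHB ⟨g, hg⟩⟩ : B) = b := Subtype.ext hb.symm
    rw [h1, h2, ← thb_E_apply hε, inv_mul_cancel_right]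
  · intro h g hg
    have h1 := hθ1 g ((hmemB _).1 hg)
    rw [hf1 h g] at h1
    refine thb_zc_inj (M := M) ?_
    rw [thb_zc_one]
    exact (left_eq_add.1 h1)
  · have hset : {g : G | π g ∈ B ∧ g • Y f ≠ Y f} = {g : G | g • z = z ∧ g • Y f ≠ Y f} := by
      ext g
      have h1 : π g ∈ B ↔ g • z = z := by
        rw [hmemB, haz]
        constructor
        · intro h
          rw [h, thb_zc_one, add_zero]
        · intro h
          refine thb_zc_inj (M := M) ?_
          rw [thb_zc_one]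
          exact add_eq_left.1 h
      exact and_congr_left' h1
    rw [hset]
    have hne : lam.comp π ≠ 1 := by
      intro h
      obtain ⟨y, hy⟩ := thb_surj hlne (ofAdd 1)
      obtain ⟨g, hgy⟩ := hπ y
      have hg : lam (π g) = ofAdd 1 := by rw [hgy, hy]
      have h1 : (lam.comp π) g = 1 := by rw [h]; rfl
      have h2 : (1 : Multiplicative (ZMod p)) = ofAdd 1 := by rw [← h1]; exact hg
      have h3 := congrArg toAdd h2
      rw [toAdd_ofAdd, toAdd_one] at h3
      exact zero_ne_one h3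
    have hx : ∀ g : G, g • (F f ^ p - F f) = F f ^ p - F f := by
      intro g
      rw [smul_sub, smul_pow', haF, add_pow_char, thb_zc_p]
      ring
    by_cases h : f = 1
    · have h1 := hHZB p G k M ι v hGS hpG z (F f ^ p - F f) (Y f) j 0 (lam.comp π) hne hjp
        (fun g => haz g) hvz hx (by
          rw [h, hF1, zero_pow hp.ne_zero, sub_zero, AddValuation.map_zero]
          exact le_top) (hY f)
      rw [if_pos h]
      exact_mod_cast h1
    · have h1 := hHZB p G k M ι v hGS hpG z (F f ^ p - F f) (Y f) j (J f) (lam.comp π) hne hjp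
        (fun g => haz g) hvz hx (hvF f h).ge (hY f)
      rw [if_neg h]
      exact_mod_cast h1

end Pool.Agent.Helper22.NP
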